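import Mathlib

namespace Pool.Agent.Results.MP_25bc1d_an.ShortestForbiddenPattern

open Filter Topology Function

/-- The symmetric tent map `T_μ(x) = 2μ·min(x, 1-x)` (used on `[0,1]`). -/
def T (μ x : ℝ) : ℝ := 2 * μ * min x (1 - x)

/-- `π` is the order pattern of `x, f x, …, f^{n-1} x` (pairwise distinct values). -/
def IsPat (f : ℝ → ℝ) (x : ℝ) {n : ℕ} (π : Equiv.Perm (Fin n)) : Prop :=
  (∀ i j : Fin n, i ≠ j → f^[(i : ℕ)] x ≠ f^[(j : ℕ)] x) ∧
    ∀ i j : Fin n, π i < π j ↔ f^[(i : ℕ)] x < f^[(j : ℕ)] x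

/-- `π ∈ Allow(f)`. -/
def Allowed (f : ℝ → ℝ) {n : ℕ} (π : Equiv.Perm (Fin n)) : Prop :=
  ∃ x ∈ Set.Icc (0 : ℝ) 1, IsPat f x π

/-- `π` is `μ`-forbidden. -/
def Forbidden (μ : ℝ) {n : ℕ} (π : Equiv.Perm (Fin n)) : Prop :=
  Allowed (T 1) π ∧ ¬ Allowed (T μ) π

/-- `π` is `σ_n = (n-1) n 1 2 ⋯ (n-2)` in one-line notation (with 1-based values; positions of
`Fin n` are 0-based). -/
def IsSigma {n : ℕ} (π : Equiv.Perm (Fin n)) : Prop :=
  2 ≤ n ∧ ∀ i : Fin n, (π i : ℕ) + 1 =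
    if (i : ℕ) = 0 then n - 1 else if (i : ℕ) = 1 then n else (i : ℕ) - 1

/-! ### Basic facts on the tent map -/

lemma T_left {μ x : ℝ} (h : x ≤ 1 / 2) : T μ x = 2 * μ * x := by
  unfold T; rw [min_eq_left (by linarith)]

lemma T_right {μ x : ℝ} (h : 1 / 2 ≤ x) : T μ x = 2 * μ * (1 - x) := by
  unfold T; rw [min_eq_right (by linarith)]

lemma cont_iter (l : ℕ) : Continuous fun p : ℝ × ℝ => (T p.1)^[l] p.2 := by
  induction l with
  | zero => simpa using continuous_snd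
  | succ l ih =>
    have : (fun p : ℝ × ℝ => (T p.1)^[l + 1] p.2) =
        fun p : ℝ × ℝ => 2 * p.1 * min ((T p.1)^[l] p.2) (1 - (T p.1)^[l] p.2) := by
      funext p
      rw [Function.iterate_succ_apply']
      rfl
    rw [this]
    exact (continuous_const.mul continuous_fst).mul (ih.min (continuous_const.sub ih))

lemma isPat_of_lt {f : ℝ → ℝ} {x : ℝ} {n : ℕ} {π : Equiv.Perm (Fin n)}
    (h : ∀ i j : Fin n, π i < π j → f^[(i : ℕ)] x < f^[(j : ℕ)] x) : IsPat f x π := by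
  constructor
  · intro i j hij
    have : π i ≠ π j := fun h' => hij (π.injective h')
    rcases lt_or_gt_of_ne this with h1 | h1
    · exact (h i j h1).ne
    · exact (h j i h1).ne'
  · intro i j
    constructor
    · exact h i j
    · intro h1
      by_contra h2
      rcases (not_lt.mp h2).lt_or_eq with h3 | h3
      · exact absurd (h j i h3) (not_lt.mpr h1.le)
      · have : j = i := π.injective h3
        subst this
        exact lt_irrefl _ h1

/-- transfer of a pattern -/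
lemma IsPat.transfer {f g : ℝ → ℝ} {x y : ℝ} {n : ℕ} {π : Equiv.Perm (Fin n)}
    (h : IsPat f x π)
    (hs : ∀ i j : Fin n, i < j →
      0 < (g^[(j : ℕ)] y - g^[(i : ℕ)] y) * (f^[(j : ℕ)] x - f^[(i : ℕ)] x)) :
    IsPat g y π := by
  apply isPat_of_lt
  intro i j hij
  have h1 : f^[(i : ℕ)] x < f^[(j : ℕ)] x := (h.2 i j).1 hij
  have hne : i ≠ j := by rintro rfl; exact lt_irrefl _ hij
  rcases lt_or_gt_of_ne hne with h2 | h2
  · have h3 := hs i j h2
    have h4 : 0 < f^[(j : ℕ)] x - f^[(i : ℕ)] x := by linarith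
    have h5 := (pos_iff_pos_of_mul_pos h3).mpr h4
    linarith
  · have h3 := hs j i h2
    have h4 : f^[(i : ℕ)] x - f^[(j : ℕ)] x < 0 := by linarith
    have h5 := (neg_iff_neg_of_mul_pos h3).mpr h4
    linarith

/-! ### Affine structure along a fixed itinerary -/

lemma step_aff {ν e y y' : ℝ} (he : e = 1 ∨ e = -1) (h : 0 < e * (1 / 2 - y))
    (h' : 0 < e * (1 / 2 - y')) : T ν y - T ν y' = e * (2 * ν) * (y - y') := by
  rcases he with rfl | rfl
  · rw [T_left (by linarith), T_left (by linarith)]; ring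
  · rw [T_right (by linarith), T_right (by linarith)]; ring

lemma iter_aff {ν x x' : ℝ} {e : ℕ → ℝ} (he : ∀ l, e l = 1 ∨ e l = -1) {m : ℕ}
    (h : ∀ l, l < m → 0 < e l * (1 / 2 - (T ν)^[l] x))
    (h' : ∀ l, l < m → 0 < e l * (1 / 2 - (T ν)^[l] x')) :
    ∀ l, l ≤ m → (T ν)^[l] x - (T ν)^[l] x' =
      (∏ i ∈ Finset.range l, e i) * (2 * ν) ^ l * (x - x') := by
  intro l
  induction l with
  | zero => intro _; simp
  | succ l ih =>
    intro hl
    rw [Function.iterate_succ_apply', Function.iterate_succ_apply',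
      step_aff (he l) (h l (by omega)) (h' l (by omega)), ih (by omega), Finset.prod_range_succ]
    ring

lemma prod_sign {e : ℕ → ℝ} (he : ∀ l, e l = 1 ∨ e l = -1) (l : ℕ) :
    (∏ i ∈ Finset.range l, e i) = 1 ∨ (∏ i ∈ Finset.range l, e i) = -1 := by
  induction l with
  | zero => left; simp
  | succ l ih =>
    rw [Finset.prod_range_succ]
    rcases ih with h | h <;> rcases he l with h1 | h1 <;> simp [h, h1]

lemma coef_pos {ν s t : ℝ} (hν : 1 / 2 < ν) (hs : s = 1 ∨ s = -1) (ht : t = 1 ∨ t = -1)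
    {i j : ℕ} (hij : i < j) : 0 < t * (t * (2 * ν) ^ j - s * (2 * ν) ^ i) := by
  have h1 : (2 * ν) ^ i < (2 * ν) ^ j := pow_lt_pow_right₀ (by linarith) hij
  have h0 : 0 < (2 * ν) ^ i := by positivity
  rcases hs with rfl | rfl <;> rcases ht with rfl | rfl <;> nlinarith

lemma coef_mul_pos {ν ν' s t : ℝ} (hν : 1 / 2 < ν) (hν' : 1 / 2 < ν')
    (hs : s = 1 ∨ s = -1) (ht : t = 1 ∨ t = -1) {i j : ℕ} (hij : i < j) :
    0 < (t * (2 * ν) ^ j - s * (2 * ν) ^ i) * (t * (2 * ν') ^ j - s * (2 * ν') ^ i) := by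
  have h1 := coef_pos hν hs ht hij
  have h2 := coef_pos hν' hs ht hij
  have h3 := mul_pos h1 h2
  have ht2 : t * t = 1 := by rcases ht with rfl | rfl <;> norm_num
  have h4 : t * (t * (2 * ν) ^ j - s * (2 * ν) ^ i) * (t * (t * (2 * ν') ^ j - s * (2 * ν') ^ i))
      = (t * t) * ((t * (2 * ν) ^ j - s * (2 * ν) ^ i) * (t * (2 * ν') ^ j - s * (2 * ν') ^ i)) := by
    ring
  rw [h4, ht2, one_mul] at h3
  exact h3

lemma iter_zero (ν : ℝ) (l : ℕ) : (T ν)^[l] 0 = 0 := by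
  induction l with
  | zero => rfl
  | succ l ih => rw [Function.iterate_succ_apply', ih]; simp [T]

lemma iter_one (ν : ℝ) (l : ℕ) : (T ν)^[l + 1] 1 = 0 := by
  rw [Function.iterate_succ_apply]
  have : T ν 1 = 0 := by simp [T]
  rw [this, iter_zero]

/-! ### The key local lemma -/

lemma key {n : ℕ} (π : Equiv.Perm (Fin n)) {ν₀ x₀ : ℝ} (hν₀ : 1 / 2 < ν₀)
    (hx₀ : x₀ ∈ Set.Icc (0 : ℝ) 1)
    (hcrit : ∀ a b, a < b → b < n → (T ν₀)^[a] (1 / 2) ≠ (T ν₀)^[b] (1 / 2)) :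
    ∀ᶠ p : ℝ × ℝ in 𝓝 (ν₀, x₀), p.2 ∈ Set.Icc (0 : ℝ) 1 → IsPat (T p.1) p.2 π →
      Allowed (T ν₀) π := by
  classical
  set y : ℕ → ℝ := fun l => (T ν₀)^[l] x₀ with hy
  -- persistence of strict inequalities
  have hpers : ∀ i j : Fin n, y i ≠ y j → ∀ᶠ p : ℝ × ℝ in 𝓝 (ν₀, x₀),
      0 < (y j - y i) * ((T p.1)^[(j : ℕ)] p.2 - (T p.1)^[(i : ℕ)] p.2) := by
    intro i j hij
    have hc : Continuous fun p : ℝ × ℝ =>
        (y j - y i) * ((T p.1)^[(j : ℕ)] p.2 - (T p.1)^[(i : ℕ)] p.2) :=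
      continuous_const.mul ((cont_iter _).sub (cont_iter _))
    have h0 : 0 < (fun p : ℝ × ℝ =>
        (y j - y i) * ((T p.1)^[(j : ℕ)] p.2 - (T p.1)^[(i : ℕ)] p.2)) (ν₀, x₀) := by
      show 0 < (y j - y i) * (y j - y i)
      exact mul_self_pos.mpr (sub_ne_zero.mpr (Ne.symm hij))
    exact hc.continuousAt.eventually (lt_mem_nhds h0)
  have hpers' : ∀ᶠ p : ℝ × ℝ in 𝓝 (ν₀, x₀), ∀ i j : Fin n, y i ≠ y j →
      0 < (y j - y i) * ((T p.1)^[(j : ℕ)] p.2 - (T p.1)^[(i : ℕ)] p.2) := by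
    rw [eventually_all]; intro i
    rw [eventually_all]; intro j
    by_cases h : y i = y j
    · exact Eventually.of_forall fun p h' => absurd h h'
    · filter_upwards [hpers i j h] with p hp _ using hp
  by_cases hA : ∀ i j : Fin n, i < j → y i ≠ y j
  · -- Case A : no coincidence
    filter_upwards [hpers'] with p hp _ hpat
    refine ⟨x₀, hx₀, hpat.transfer ?_⟩
    intro i j hij
    exact hp i j (hA i j hij)
  -- Case B
  push Not at hA
  obtain ⟨i₁, j₁, hij₁, hyij₁⟩ := hA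
  have hne : ∀ l, y l ≠ 1 / 2 := by
    intro l hl
    rcases le_or_gt (i₁ : ℕ) l with h | h
    · have h1 : y (l + ((j₁ : ℕ) - i₁)) = y l := by
        have e1 : l + ((j₁ : ℕ) - i₁) = (l - i₁) + j₁ := by
          have : (i₁ : ℕ) < j₁ := hij₁
          omega
        have e2 : l = (l - i₁) + i₁ := by omega
        have e3 : y (l + ((j₁ : ℕ) - i₁)) = (T ν₀)^[l - i₁] (y j₁) := by
          rw [e1]; simp only [hy]; rw [Function.iterate_add_apply]
        have e4 : y l = (T ν₀)^[l - i₁] (y i₁) := by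
          conv_lhs => rw [e2]
          simp only [hy]; rw [Function.iterate_add_apply]
        rw [e3, e4, hyij₁]
      have h2 : y (l + ((j₁ : ℕ) - i₁)) = (T ν₀)^[(j₁ : ℕ) - i₁] (1 / 2) := by
        rw [add_comm]; simp only [hy]; rw [Function.iterate_add_apply]
        have : (T ν₀)^[l] x₀ = 1 / 2 := hl
        rw [this]
      refine hcrit 0 ((j₁ : ℕ) - i₁) ?_ ?_ ?_
      · have : (i₁ : ℕ) < j₁ := hij₁
        omega
      · have := j₁.2; omega
      · rw [← h2, h1, hl]; rfl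
    · have hij : (i₁ : ℕ) < j₁ := hij₁
      have h1 : y i₁ = (T ν₀)^[(i₁ : ℕ) - l] (1 / 2) := by
        have e1 : (i₁ : ℕ) = ((i₁ : ℕ) - l) + l := by omega
        have : y i₁ = (T ν₀)^[(i₁ : ℕ) - l] (y l) := by
          conv_lhs => rw [e1]
          simp only [hy]; rw [Function.iterate_add_apply]
        rw [this, hl]
      have h2 : y j₁ = (T ν₀)^[(j₁ : ℕ) - l] (1 / 2) := by
        have e1 : (j₁ : ℕ) = ((j₁ : ℕ) - l) + l := by omega
        have : y j₁ = (T ν₀)^[(j₁ : ℕ) - l] (y l) := by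
          conv_lhs => rw [e1]
          simp only [hy]; rw [Function.iterate_add_apply]
        rw [this, hl]
      refine hcrit ((i₁ : ℕ) - l) ((j₁ : ℕ) - l) (by omega) (by have := j₁.2; omega) ?_
      rw [← h1, ← h2, hyij₁]
  -- signs
  set e : ℕ → ℝ := fun l => if y l < 1 / 2 then 1 else -1 with he_def
  have he : ∀ l, e l = 1 ∨ e l = -1 := by
    intro l; simp only [he_def]; split_ifs <;> simp
  have hside0 : ∀ l, 0 < e l * (1 / 2 - y l) := by
    intro l; simp only [he_def]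
    split_ifs with h
    · linarith
    · have h1 := lt_of_le_of_ne (not_lt.mp h) (Ne.symm (hne l))
      linarith
  have hside : ∀ᶠ p : ℝ × ℝ in 𝓝 (ν₀, x₀), ∀ l : Fin n,
      0 < e l * (1 / 2 - (T p.1)^[(l : ℕ)] p.2) := by
    rw [eventually_all]; intro l
    have hc : Continuous fun p : ℝ × ℝ => e l * (1 / 2 - (T p.1)^[(l : ℕ)] p.2) :=
      continuous_const.mul (continuous_const.sub (cont_iter _))
    exact hc.continuousAt.eventually (lt_mem_nhds (hside0 l))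
  -- the first index of a coincidence
  have hex : ∃ i, ∃ j, i < j ∧ j < n ∧ y i = y j := ⟨i₁, j₁, hij₁, j₁.2, hyij₁⟩
  obtain ⟨j₂, hij₂, hj₂n, hy₂⟩ := Nat.find_spec hex
  set i₀ := Nat.find hex with hi₀
  have hmin : ∀ i j, i < j → j < n → y i = y j → i₀ ≤ i :=
    fun i j h1 h2 h3 => Nat.find_min' hex ⟨j, h1, h2, h3⟩
  have hyadd : ∀ a b, y (a + b) = (T ν₀)^[a] (y b) := by
    intro a b; simp only [hy]; rw [Function.iterate_add_apply]
  have hper₂ : IsPeriodicPt (T ν₀) (j₂ - i₀) (y i₀) := by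
    show (T ν₀)^[j₂ - i₀] (y i₀) = y i₀
    rw [← hyadd, show j₂ - i₀ + i₀ = j₂ by omega, hy₂]
  set p₀ := minimalPeriod (T ν₀) (y i₀) with hp₀
  have hp₀pos : 0 < p₀ := hper₂.minimalPeriod_pos (by omega)
  have hp₀le : p₀ ≤ j₂ - i₀ := hper₂.minimalPeriod_le (by omega)
  have hperpt : y i₀ ∈ periodicPts (T ν₀) := ⟨j₂ - i₀, by omega, hper₂⟩
  have hyj₀ : y (i₀ + p₀) = y i₀ := by
    rw [add_comm, hyadd]; exact isPeriodicPt_minimalPeriod _ _
  have hdvd : ∀ i j, i < j → j < n → y i = y j → p₀ ∣ j - i := by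
    intro i j h1 h2 h3
    have h4 := hmin i j h1 h2 h3
    have h5 : IsPeriodicPt (T ν₀) (j - i) (y i) := by
      show (T ν₀)^[j - i] (y i) = y i
      rw [← hyadd, show j - i + i = j by omega, h3]
    have h6 : minimalPeriod (T ν₀) (y i) = p₀ := by
      have : y i = (T ν₀)^[i - i₀] (y i₀) := by rw [← hyadd, show i - i₀ + i₀ = i by omega]
      rw [this, minimalPeriod_apply_iterate hperpt]
    rw [← h6]; exact h5.minimalPeriod_dvd
  -- the moving eventually periodic point q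
  set S : ℕ → ℝ := fun l => ∏ i ∈ Finset.range l, e i with hS
  have hSs : ∀ l, S l = 1 ∨ S l = -1 := prod_sign he
  set c : ℝ → ℝ := fun ν => S (i₀ + p₀) * (2 * ν) ^ (i₀ + p₀) - S i₀ * (2 * ν) ^ i₀ with hc
  set D : ℝ → ℝ → ℝ := fun ν x => (T ν)^[i₀ + p₀] x - (T ν)^[i₀] x with hD
  set q : ℝ → ℝ := fun ν => x₀ - D ν x₀ / c ν with hq
  have hcne : ∀ ν, 1 / 2 < ν → c ν ≠ 0 := by
    intro ν hν h0
    have := coef_pos hν (hSs i₀) (hSs (i₀ + p₀)) (show i₀ < i₀ + p₀ by omega)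
    rw [show S (i₀ + p₀) * (2 * ν) ^ (i₀ + p₀) - S i₀ * (2 * ν) ^ i₀ = c ν from rfl, h0] at this
    simp at this
  have hDcont : Continuous fun ν : ℝ => D ν x₀ := by
    have h1 : Continuous fun ν : ℝ => (T ν)^[i₀ + p₀] x₀ :=
      (cont_iter (i₀ + p₀)).comp (continuous_id.prodMk continuous_const)
    have h2 : Continuous fun ν : ℝ => (T ν)^[i₀] x₀ :=
      (cont_iter i₀).comp (continuous_id.prodMk continuous_const)
    exact h1.sub h2
  have hccont : Continuous c := by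
    simp only [hc]; fun_prop
  have hq₀ : q ν₀ = x₀ := by
    have : D ν₀ x₀ = 0 := sub_eq_zero.mpr hyj₀
    simp only [hq]; rw [this]; simp
  have hqcont : ContinuousAt q ν₀ := by
    have : ContinuousAt (fun ν => D ν x₀ / c ν) ν₀ :=
      hDcont.continuousAt.div hccont.continuousAt (hcne ν₀ hν₀)
    exact continuousAt_const.sub this
  have hgraph : Tendsto (fun ν => (ν, q ν)) (𝓝 ν₀) (𝓝 (ν₀, x₀)) := by
    have : ContinuousAt (fun ν => (ν, q ν)) ν₀ := continuousAt_id.prodMk hqcont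
    simpa [ContinuousAt, hq₀] using this
  have hgraph' : Tendsto (fun ν : ℝ => (ν, x₀)) (𝓝 ν₀) (𝓝 (ν₀, x₀)) :=
    (continuous_id.prodMk continuous_const).tendsto ν₀
  have hνev : ∀ᶠ ν : ℝ in 𝓝 ν₀, 1 / 2 < ν ∧
      (∀ l : Fin n, 0 < e l * (1 / 2 - (T ν)^[(l : ℕ)] (q ν))) ∧
      (∀ l : Fin n, 0 < e l * (1 / 2 - (T ν)^[(l : ℕ)] x₀)) :=
    (lt_mem_nhds hν₀).and ((hgraph.eventually hside).and (hgraph'.eventually hside))
  have hνev' : ∀ᶠ p : ℝ × ℝ in 𝓝 (ν₀, x₀), 1 / 2 < p.1 ∧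
      (∀ l : Fin n, 0 < e l * (1 / 2 - (T p.1)^[(l : ℕ)] (q p.1))) ∧
      (∀ l : Fin n, 0 < e l * (1 / 2 - (T p.1)^[(l : ℕ)] x₀)) :=
    ((continuous_fst : Continuous (Prod.fst : ℝ × ℝ → ℝ)).tendsto (ν₀, x₀)).eventually hνev
  filter_upwards [hpers', hside, hνev'] with p hp1 hp2 hp3 hpI hpat
  obtain ⟨ν, x⟩ := p
  simp only at hp1 hp2 hp3 hpI hpat
  obtain ⟨hν, hq2, hx2⟩ := hp3
  have hn0 : i₀ + p₀ < n := by omega
  -- q is a zero of D
  have hDq : D ν (q ν) = 0 := by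
    have a1 := iter_aff he (m := n) (fun l hl => hq2 ⟨l, hl⟩) (fun l hl => hx2 ⟨l, hl⟩)
      (i₀ + p₀) (by omega)
    have a2 := iter_aff he (m := n) (fun l hl => hq2 ⟨l, hl⟩) (fun l hl => hx2 ⟨l, hl⟩)
      i₀ (by omega)
    have a3 : D ν (q ν) = D ν x₀ + c ν * (q ν - x₀) := by
      simp only [hD, hc, hS]
      linear_combination a1 - a2
    rw [a3]
    simp only [hq]
    have := hcne ν hν
    field_simp
    ring
  have hqper : ∀ i j, i < j → j < n → y i = y j → (T ν)^[j] (q ν) = (T ν)^[i] (q ν) := by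
    intro i j h1 h2 h3
    have h4 := hmin i j h1 h2 h3
    have h5 := hdvd i j h1 h2 h3
    have h6 : IsPeriodicPt (T ν) p₀ ((T ν)^[i₀] (q ν)) := by
      show (T ν)^[p₀] ((T ν)^[i₀] (q ν)) = (T ν)^[i₀] (q ν)
      rw [← Function.iterate_add_apply, add_comm p₀ i₀]
      exact sub_eq_zero.mp hDq
    have h7 := (h6.apply_iterate (i - i₀)).trans_dvd h5
    have h8 : (T ν)^[i - i₀] ((T ν)^[i₀] (q ν)) = (T ν)^[i] (q ν) := by
      rw [← Function.iterate_add_apply, show i - i₀ + i₀ = i by omega]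
    rw [h8] at h7
    have h9 : (T ν)^[j - i] ((T ν)^[i] (q ν)) = (T ν)^[i] (q ν) := h7
    rw [← Function.iterate_add_apply, show j - i + i = j by omega] at h9
    exact h9
  -- choice of θ
  set d : ℝ := x - q ν with hd
  have hθt : Tendsto (fun θ : ℝ => (ν₀, x₀ + θ * d)) (𝓝[>] 0) (𝓝 (ν₀, x₀)) := by
    have hcθ : Continuous fun θ : ℝ => (ν₀, x₀ + θ * d) := by fun_prop
    have := (hcθ.tendsto 0).mono_left (nhdsWithin_le_nhds (s := Set.Ioi 0))
    simpa using this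
  have hθI : ∀ᶠ θ : ℝ in 𝓝[>] 0, x₀ + θ * d ∈ Set.Icc (0 : ℝ) 1 := by
    by_cases hx00 : x₀ = 0
    · have hqν : q ν = 0 := by
        simp only [hq, hD, hx00, iter_zero]; simp
      have hdx : d = x := by rw [hd, hqν, sub_zero]
      have : ∀ᶠ θ : ℝ in 𝓝[>] 0, θ < 1 := nhdsWithin_le_nhds (gt_mem_nhds one_pos)
      filter_upwards [this, self_mem_nhdsWithin] with θ h1 h2
      rw [hx00, hdx, zero_add]
      have h2' : (0 : ℝ) < θ := h2
      exact ⟨mul_nonneg h2'.le hpI.1, by nlinarith [hpI.1, hpI.2]⟩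
    by_cases hx01 : x₀ = 1
    · have hi₀ : i₀ ≠ 0 := by
        intro h0
        have h1 : y i₀ = 1 := by rw [h0, hy]; simp [hx01]
        have h2 : y j₂ = 0 := by
          have : j₂ = (j₂ - 1) + 1 := by omega
          rw [this, hy]; simp only [hx01]; exact iter_one _ _
        rw [h1, h2] at hy₂; norm_num at hy₂
      have hqν : q ν = 1 := by
        have h1 : D ν x₀ = 0 := by
          simp only [hD, hx01]
          rw [show i₀ + p₀ = (i₀ + p₀ - 1) + 1 by omega, iter_one]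
          rw [show i₀ = (i₀ - 1) + 1 by omega, iter_one, sub_zero]
        simp only [hq]; rw [h1, hx01]; simp
      have hdx : d = x - 1 := by rw [hd, hqν]
      have : ∀ᶠ θ : ℝ in 𝓝[>] 0, θ < 1 := nhdsWithin_le_nhds (gt_mem_nhds one_pos)
      filter_upwards [this, self_mem_nhdsWithin] with θ h1 h2
      rw [hx01, hdx]
      have h2' : (0 : ℝ) < θ := h2
      exact ⟨by nlinarith [hpI.1, hpI.2], by nlinarith [hpI.1, hpI.2]⟩
    · have h0 : 0 < x₀ := lt_of_le_of_ne hx₀.1 (Ne.symm hx00)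
      have h1 : x₀ < 1 := lt_of_le_of_ne hx₀.2 hx01
      have hcθ : Continuous fun θ : ℝ => x₀ + θ * d := by fun_prop
      have h2 : Tendsto (fun θ : ℝ => x₀ + θ * d) (𝓝[>] 0) (𝓝 x₀) := by
        have := (hcθ.tendsto 0).mono_left (nhdsWithin_le_nhds (s := Set.Ioi 0))
        simpa using this
      exact h2.eventually (Icc_mem_nhds h0 h1)
  obtain ⟨θ, hθ1, hθ2, hθ3, hθ4⟩ :=
    ((hθt.eventually hpers').and ((hθt.eventually hside).and
      (hθI.and self_mem_nhdsWithin))).exists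
  have hθ4' : (0 : ℝ) < θ := hθ4
  refine ⟨x₀ + θ * d, hθ3, hpat.transfer ?_⟩
  intro i j hij
  have hij' : (i : ℕ) < j := hij
  by_cases hE : y i = y j
  · -- coincidence pair
    have a1 := iter_aff he (m := n) (fun l hl => hp2 ⟨l, hl⟩) (fun l hl => hq2 ⟨l, hl⟩)
      j j.2.le
    have a2 := iter_aff he (m := n) (fun l hl => hp2 ⟨l, hl⟩) (fun l hl => hq2 ⟨l, hl⟩)
      i i.2.le
    have a3 := hqper i j hij' j.2 hE
    have b1 : (T ν)^[(j : ℕ)] x - (T ν)^[(i : ℕ)] x =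
        (S j * (2 * ν) ^ (j : ℕ) - S i * (2 * ν) ^ (i : ℕ)) * d := by
      simp only [hS, hd]
      linear_combination a1 - a2 + a3
    have hx₀side : ∀ l, l < n → 0 < e l * (1 / 2 - (T ν₀)^[l] x₀) := fun l _ => hside0 l
    have a4 := iter_aff he (m := n) (fun l hl => hθ2 ⟨l, hl⟩) hx₀side j j.2.le
    have a5 := iter_aff he (m := n) (fun l hl => hθ2 ⟨l, hl⟩) hx₀side i i.2.le
    have a6 : (T ν₀)^[(i : ℕ)] x₀ = (T ν₀)^[(j : ℕ)] x₀ := hE
    have b2 : (T ν₀)^[(j : ℕ)] (x₀ + θ * d) - (T ν₀)^[(i : ℕ)] (x₀ + θ * d) =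
        (S j * (2 * ν₀) ^ (j : ℕ) - S i * (2 * ν₀) ^ (i : ℕ)) * (θ * d) := by
      simp only [hS]
      linear_combination a4 - a5 - a6
    have hdne : d ≠ 0 := by
      intro h0
      have : (T ν)^[(j : ℕ)] x - (T ν)^[(i : ℕ)] x = 0 := by rw [b1, h0, mul_zero]
      exact hpat.1 j i (ne_of_gt hij) (sub_eq_zero.mp this)
    rw [b1, b2]
    have h1 := coef_mul_pos hν₀ hν (hSs i) (hSs j) hij'
    have h2 : 0 < θ * (d * d) := mul_pos hθ4' (mul_self_pos.mpr hdne)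
    have h3 := mul_pos h1 h2
    calc (0 : ℝ) < _ := h3
      _ = _ := by ring
  · have h1 := hp1 i j hE
    have h2 := hθ1 i j hE
    have h3 := mul_pos h2 h1
    have h4 : 0 < (y j - y i) * (y j - y i) :=
      mul_self_pos.mpr (sub_ne_zero.mpr (Ne.symm hE))
    have h5 : ((y j - y i) * ((T ν₀)^[(j : ℕ)] (x₀ + θ * d) - (T ν₀)^[(i : ℕ)] (x₀ + θ * d))) *
        ((y j - y i) * ((T ν)^[(j : ℕ)] x - (T ν)^[(i : ℕ)] x)) =
        ((y j - y i) * (y j - y i)) *
        (((T ν₀)^[(j : ℕ)] (x₀ + θ * d) - (T ν₀)^[(i : ℕ)] (x₀ + θ * d)) *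
        ((T ν)^[(j : ℕ)] x - (T ν)^[(i : ℕ)] x)) := by ring
    have h6 := h5 ▸ h3
    exact (mul_pos_iff_of_pos_left h4).mp h6

/-! ### Homotopy in the parameter -/

lemma allowed_open {n : ℕ} (π : Equiv.Perm (Fin n)) {ν₀ : ℝ} (h : Allowed (T ν₀) π) :
    ∀ᶠ ν : ℝ in 𝓝 ν₀, Allowed (T ν) π := by
  obtain ⟨x, hx, hpat⟩ := h
  have hev : ∀ᶠ ν : ℝ in 𝓝 ν₀, ∀ i j : Fin n, i < j →
      0 < ((T ν)^[(j : ℕ)] x - (T ν)^[(i : ℕ)] x) *
        ((T ν₀)^[(j : ℕ)] x - (T ν₀)^[(i : ℕ)] x) := by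
    rw [eventually_all]; intro i
    rw [eventually_all]; intro j
    by_cases hij : i < j
    · have hc : Continuous fun ν : ℝ => ((T ν)^[(j : ℕ)] x - (T ν)^[(i : ℕ)] x) *
          ((T ν₀)^[(j : ℕ)] x - (T ν₀)^[(i : ℕ)] x) := by
        have h1 : Continuous fun ν : ℝ => (T ν)^[(j : ℕ)] x :=
          (cont_iter _).comp (continuous_id.prodMk continuous_const)
        have h2 : Continuous fun ν : ℝ => (T ν)^[(i : ℕ)] x :=
          (cont_iter _).comp (continuous_id.prodMk continuous_const)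
        exact (h1.sub h2).mul continuous_const
      have h0 : 0 < ((T ν₀)^[(j : ℕ)] x - (T ν₀)^[(i : ℕ)] x) *
          ((T ν₀)^[(j : ℕ)] x - (T ν₀)^[(i : ℕ)] x) :=
        mul_self_pos.mpr (sub_ne_zero.mpr (hpat.1 j i (ne_of_gt hij)))
      filter_upwards [hc.continuousAt.eventually (lt_mem_nhds h0)] with ν hν _ using hν
    · exact Eventually.of_forall fun ν h' => absurd h' hij
  filter_upwards [hev] with ν hν
  exact ⟨x, hx, hpat.transfer fun i j hij => hν i j hij⟩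

lemma allowed_closed {n : ℕ} (π : Equiv.Perm (Fin n)) {ν₀ : ℝ} (hν₀ : 1 / 2 < ν₀)
    (hcrit : ∀ a b, a < b → b < n → (T ν₀)^[a] (1 / 2) ≠ (T ν₀)^[b] (1 / 2)) :
    ∀ᶠ ν : ℝ in 𝓝 ν₀, Allowed (T ν) π → Allowed (T ν₀) π := by
  have h := (isCompact_Icc (a := (0 : ℝ)) (b := 1)).eventually_forall_of_forall_eventually
    (x₀ := ν₀) (P := fun ν x => x ∈ Set.Icc (0 : ℝ) 1 → IsPat (T ν) x π → Allowed (T ν₀) π)
    (fun x hx => key π hν₀ hx hcrit)
  filter_upwards [h] with ν hν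
  rintro ⟨x, hx, hpat⟩
  exact hν x hx hx hpat

/-- If the first `n` points of the critical orbit are distinct for all `ν ∈ [μ,1)`, then every
pattern of length `n` allowed for the full tent map is allowed for `T_μ`. -/
lemma allowed_of_crit {n : ℕ} (π : Equiv.Perm (Fin n)) {μ : ℝ} (hμ : 1 / 2 < μ) (hμ1 : μ < 1)
    (hcrit : ∀ ν, μ ≤ ν → ν < 1 → ∀ a b, a < b → b < n →
      (T ν)^[a] (1 / 2) ≠ (T ν)^[b] (1 / 2))
    (h1 : Allowed (T 1) π) : Allowed (T μ) π := by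
  have hcon : ∀ ν ∈ Set.Ico μ 1, (Allowed (T μ) π ↔ Allowed (T ν) π) := by
    intro ν hν
    refine isPreconnected_Ico.induction₂ (fun x y => (Allowed (T x) π ↔ Allowed (T y) π))
      ?_ ?_ ?_ (Set.left_mem_Ico.mpr hμ1) hν
    · intro x hx
      have a1 := allowed_closed π (lt_of_lt_of_le hμ hx.1) (hcrit x hx.1 hx.2)
      by_cases hA : Allowed (T x) π
      · filter_upwards [nhdsWithin_le_nhds (allowed_open π hA)] with y hy
        exact ⟨fun _ => hy, fun _ => hA⟩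
      · filter_upwards [nhdsWithin_le_nhds a1] with y hy
        exact ⟨fun h => absurd h hA, hy⟩
    · intro a b c _ _ _ hab hbc
      exact hab.trans hbc
    · intro a b _ _ hab
      exact hab.symm
  have hev : ∀ᶠ ν : ℝ in 𝓝[<] 1, Allowed (T ν) π := nhdsWithin_le_nhds (allowed_open π h1)
  have hev2 : ∀ᶠ ν : ℝ in 𝓝[<] 1, ν ∈ Set.Ico μ 1 := by
    filter_upwards [nhdsWithin_le_nhds (lt_mem_nhds hμ1), self_mem_nhdsWithin] with ν a b
    exact ⟨le_of_lt a, b⟩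
  obtain ⟨ν, a, b⟩ := (hev.and hev2).exists
  exact (hcon ν b).mpr a

/-! ### The critical orbit -/

lemma crit_formula {ν : ℝ} (hν : 1 / 2 < ν) {n : ℕ}
    (H : (2 * ν) ^ (n - 2) * (1 - ν) < 1 / 2) (hν1 : ν < 1) :
    ∀ a, a + 2 < n → (T ν)^[a + 2] (1 / 2) = (2 * ν) ^ (a + 1) * (1 - ν) ∧
      (2 * ν) ^ (a + 1) * (1 - ν) < 1 / 2 := by
  have hlt : ∀ a, a + 2 < n → (2 * ν) ^ (a + 1) * (1 - ν) < 1 / 2 := by
    intro a ha
    refine lt_of_le_of_lt ?_ H
    exact mul_le_mul_of_nonneg_right (pow_le_pow_right₀ (by linarith) (by omega)) (by linarith)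
  intro a
  induction a with
  | zero =>
    intro ha
    refine ⟨?_, hlt 0 ha⟩
    show T ν (T ν (1 / 2)) = _
    rw [T_left (le_refl _), T_right (by linarith)]; ring
  | succ a ih =>
    intro ha
    refine ⟨?_, hlt (a + 1) ha⟩
    have h1 := ih (by omega)
    rw [show a + 1 + 2 = (a + 2) + 1 by ring, Function.iterate_succ_apply', h1.1,
      T_left h1.2.le]
    ring

lemma crit_distinct {ν : ℝ} (hν : 1 / 2 < ν) (hν1 : ν < 1) {n : ℕ}
    (H : n ≤ 2 ∨ (2 * ν) ^ (n - 2) * (1 - ν) < 1 / 2) :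
    ∀ a b, a < b → b < n → (T ν)^[a] (1 / 2) ≠ (T ν)^[b] (1 / 2) := by
  have h1 : (T ν)^[1] (1 / 2) = ν := by
    show T ν (1 / 2) = ν
    rw [T_left (le_refl _)]; ring
  intro a b hab hb
  rcases Nat.lt_or_ge b 2 with hb2 | hb2
  · have ha : a = 0 := by omega
    have hb1 : b = 1 := by omega
    subst ha; subst hb1
    rw [h1]
    show (1 / 2 : ℝ) ≠ ν
    exact hν.ne
  · have H' : (2 * ν) ^ (n - 2) * (1 - ν) < 1 / 2 := by
      rcases H with h | h
      · omega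
      · exact h
    obtain ⟨b', rfl⟩ : ∃ b', b = b' + 2 := ⟨b - 2, by omega⟩
    have hb' := crit_formula hν H' hν1 b' hb
    rcases Nat.lt_or_ge a 2 with ha2 | ha2
    · interval_cases a
      · show (1 / 2 : ℝ) ≠ _
        rw [hb'.1]; exact hb'.2.ne'
      · rw [h1, hb'.1]
        have := hb'.2
        intro h
        linarith
    · obtain ⟨a', rfl⟩ : ∃ a', a = a' + 2 := ⟨a - 2, by omega⟩
      have ha' := crit_formula hν H' hν1 a' (by omega)
      rw [ha'.1, hb'.1]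
      apply ne_of_lt
      exact mul_lt_mul_of_pos_right (pow_lt_pow_right₀ (by linarith) (by omega)) (by linarith)

lemma cond_iff {s : ℝ} (hs : 1 < s) (k : ℕ) :
    s ^ k * (2 - s) < 1 ↔ ∑ i ∈ Finset.range k, s ^ i < s ^ k := by
  have h := geom_sum_mul s k
  constructor
  · intro h1
    have h2 : (∑ i ∈ Finset.range k, s ^ i) * (s - 1) < s ^ k * (s - 1) := by
      rw [h]; nlinarith
    exact lt_of_mul_lt_mul_right h2 (by linarith)
  · intro h1
    have h2 : (∑ i ∈ Finset.range k, s ^ i) * (s - 1) < s ^ k * (s - 1) :=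
      mul_lt_mul_of_pos_right h1 (by linarith)
    rw [h] at h2; nlinarith

lemma cond_mono {s t : ℝ} (hs : 1 < s) (hst : s ≤ t) (k : ℕ) (h : s ^ k * (2 - s) < 1) :
    t ^ k * (2 - t) < 1 := by
  rw [cond_iff (lt_of_lt_of_le hs hst)]
  rw [cond_iff hs] at h
  have hr : 1 ≤ t / s := by rw [le_div_iff₀ (by linarith)]; linarith
  have ht : t = s * (t / s) := by field_simp
  calc ∑ i ∈ Finset.range k, t ^ i ≤ ∑ i ∈ Finset.range k, s ^ i * (t / s) ^ k := by
        apply Finset.sum_le_sum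
        intro i hi
        have hik : i ≤ k := (Finset.mem_range.mp hi).le
        conv_lhs => rw [ht]
        rw [mul_pow]
        exact mul_le_mul_of_nonneg_left (pow_le_pow_right₀ hr hik) (by positivity)
    _ = (∑ i ∈ Finset.range k, s ^ i) * (t / s) ^ k := by rw [Finset.sum_mul]
    _ < s ^ k * (t / s) ^ k := mul_lt_mul_of_pos_right h (by positivity)
    _ = t ^ k := by rw [← mul_pow, ← ht]

lemma H_mono {μ ν : ℝ} (hμ : 1 / 2 < μ) (hμν : μ ≤ ν) (k : ℕ)
    (h : (2 * μ) ^ k * (1 - μ) < 1 / 2) : (2 * ν) ^ k * (1 - ν) < 1 / 2 := by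
  have h1 : (2 * μ) ^ k * (2 - 2 * μ) < 1 := by nlinarith
  have h2 := cond_mono (by linarith) (show 2 * μ ≤ 2 * ν by linarith) k h1
  nlinarith

/-- Under `(2μ)^{n-2}(1-μ) < 1/2` (or `n ≤ 2`) no pattern of length `n` is `μ`-forbidden. -/
lemma no_forbidden {n : ℕ} {μ : ℝ} (hμ : 1 / 2 < μ) (hμ1 : μ < 1)
    (H : n ≤ 2 ∨ (2 * μ) ^ (n - 2) * (1 - μ) < 1 / 2) (π : Equiv.Perm (Fin n)) :
    ¬ Forbidden μ π := by
  rintro ⟨h1, h2⟩
  refine h2 (allowed_of_crit π hμ hμ1 ?_ h1)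
  intro ν hν hν1
  refine crit_distinct (lt_of_lt_of_le hμ hν) hν1 ?_
  rcases H with h | h
  · exact Or.inl h
  · exact Or.inr (H_mono hμ hν _ h)

/-! ### The pattern `σ_n` -/

lemma T_nonneg {μ x : ℝ} (hμ : 0 < μ) (hμ1 : μ ≤ 1) (hx : x ∈ Set.Icc (0 : ℝ) 1) :
    T μ x ∈ Set.Icc (0 : ℝ) 1 := by
  obtain ⟨h0, h1⟩ := hx
  rcases le_total x (1 / 2) with h | h
  · rw [T_left h]
    exact ⟨by positivity, by nlinarith⟩
  · rw [T_right h]
    exact ⟨mul_nonneg (by linarith) (by linarith), by nlinarith⟩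

lemma iter_mem {μ x : ℝ} (hμ : 0 < μ) (hμ1 : μ ≤ 1) (hx : x ∈ Set.Icc (0 : ℝ) 1) (l : ℕ) :
    (T μ)^[l] x ∈ Set.Icc (0 : ℝ) 1 := by
  induction l with
  | zero => exact hx
  | succ l ih => rw [Function.iterate_succ_apply']; exact T_nonneg hμ hμ1 ih

lemma sigma_imp {μ : ℝ} (hμ : 1 / 2 < μ) (hμ1 : μ < 1) {k : ℕ}
    (σ : Equiv.Perm (Fin (k + 3))) (hσ : IsSigma σ) (h : Allowed (T μ) σ) :
    (2 * μ) ^ (k + 1) * (1 - μ) < 1 / 2 := by
  rcases Nat.eq_zero_or_pos k with rfl | hk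
  · have : 0 < (2 * μ - 1) * (2 * μ - 1) := mul_pos (by linarith) (by linarith)
    norm_num
    nlinarith
  obtain ⟨x, hx, hpat⟩ := h
  have hσ' := hσ.2
  -- values of σ
  have v0 : (σ ⟨0, by omega⟩ : ℕ) = k + 1 := by
    have := hσ' ⟨0, by omega⟩
    rw [if_pos rfl] at this; omega
  have v1 : (σ ⟨1, by omega⟩ : ℕ) = k + 2 := by
    have := hσ' ⟨1, by omega⟩
    rw [if_neg (show ¬ (1 : ℕ) = 0 by norm_num), if_pos rfl] at this; omega
  have v2 : ∀ j (hj : j + 2 < k + 3), (σ ⟨j + 2, hj⟩ : ℕ) = j := by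
    intro j hj
    have := hσ' ⟨j + 2, hj⟩
    simp at this; omega
  set y : ℕ → ℝ := fun l => (T μ)^[l] x with hy
  have hmem : ∀ l, y l ∈ Set.Icc (0 : ℝ) 1 := fun l => iter_mem (by linarith) hμ1.le hx l
  have hsucc : ∀ l, y (l + 1) = T μ (y l) := fun l => by
    simp only [hy]; rw [Function.iterate_succ_apply']
  have o01 : y 0 < y 1 := by
    refine (hpat.2 ⟨0, by omega⟩ ⟨1, by omega⟩).1 ?_
    rw [Fin.lt_def, v0, v1]; omega
  have oj0 : ∀ j, j + 2 < k + 3 → y (j + 2) < y 0 := by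
    intro j hj
    refine (hpat.2 ⟨j + 2, hj⟩ ⟨0, by omega⟩).1 ?_
    rw [Fin.lt_def, v0, v2 j hj]; omega
  have ojj : ∀ j, j + 3 < k + 3 → y (j + 2) < y (j + 3) := by
    intro j hj
    refine (hpat.2 ⟨j + 2, by omega⟩ ⟨j + 1 + 2, by omega⟩).1 ?_
    rw [Fin.lt_def, v2 j (by omega), v2 (j + 1) (by omega)]; omega
  have hy0 : y 0 = x := rfl
  have hy1 : y 1 = T μ x := rfl
  have hpos : (0 : ℝ) < 2 * μ := by linarith
  -- y 1 > 1/2
  have h1 : 1 / 2 < y 1 := by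
    by_contra hcon
    push Not at hcon
    have h2 : y 2 = 2 * μ * y 1 := by rw [hsucc 1, T_left hcon]
    have h3 := oj0 0 (by omega)
    simp only [zero_add] at h3
    have h4 := (hmem 1).1
    nlinarith
  have h2 : y 2 = 2 * μ * (1 - y 1) := by rw [hsucc 1, T_right h1.le]
  have hlt : ∀ j, j + 3 < k + 3 → y (j + 2) < 1 / 2 := by
    intro j hj
    by_contra hcon
    push Not at hcon
    have a1 := oj0 j (by omega)
    have a2 : y (j + 3) = 2 * μ * (1 - y (j + 2)) := by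
      rw [show j + 3 = (j + 2) + 1 by ring, hsucc, T_right hcon]
    have a3 : y 1 = 2 * μ * (1 - y 0) := by
      rw [show y 1 = T μ (y 0) from rfl, T_right (by linarith)]
    have a4 := oj0 (j + 1) (by omega)
    rw [show j + 1 + 2 = j + 3 by ring] at a4
    nlinarith
  have hform : ∀ j, j + 2 < k + 3 → y (j + 2) = (2 * μ) ^ j * y 2 := by
    intro j
    induction j with
    | zero => intro _; simp
    | succ j ih =>
      intro hj
      have a1 := ih (by omega)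
      have a2 := hlt j (by omega)
      rw [show j + 1 + 2 = (j + 2) + 1 by ring, hsucc, T_left a2.le, a1]
      ring
  have hlast := hform k (by omega)
  have hlast0 := oj0 k (by omega)
  rw [hlast, h2] at hlast0
  have hpk : 0 < (2 * μ) ^ k := by positivity
  have hpk1 : (1 : ℝ) ≤ (2 * μ) ^ (k + 2) := one_le_pow₀ (by linarith)
  rcases le_total x (1 / 2) with hxh | hxh
  · have a1 : y 1 ≤ μ := by
      rw [hy1, T_left hxh]; nlinarith
    have a2 : (2 * μ) ^ (k + 1) * (1 - μ) ≤ (2 * μ) ^ k * (2 * μ * (1 - y 1)) := by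
      have : (2 * μ) ^ (k + 1) * (1 - μ) = (2 * μ) ^ k * (2 * μ * (1 - μ)) := by ring
      rw [this]
      refine mul_le_mul_of_nonneg_left ?_ hpk.le
      exact mul_le_mul_of_nonneg_left (by linarith) hpos.le
    have a3 : y 0 ≤ 1 / 2 := hxh
    linarith
  · have a1 : y 1 = 2 * μ * (1 - x) := by rw [hy1, T_right hxh]
    have a2 : (2 * μ) ^ k * (2 * μ * (1 - y 1)) =
        (2 * μ) ^ (k + 1) * (1 - μ) + (2 * μ) ^ (k + 2) * (x - 1 / 2) := by
      rw [a1]; ring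
    have a3 : y 0 = x := rfl
    rw [a2, a3] at hlast0
    nlinarith

/-- existence of `σ_n` -/
lemma exists_sigma (k : ℕ) : ∃ σ : Equiv.Perm (Fin (k + 3)), IsSigma σ := by
  let f : Fin (k + 3) → Fin (k + 3) := fun i =>
    if (i : ℕ) = 0 then ⟨k + 1, by omega⟩ else if (i : ℕ) = 1 then ⟨k + 2, by omega⟩
      else ⟨(i : ℕ) - 2, by have := i.2; omega⟩
  have hf : Function.Injective f := by
    intro i j hij
    have hi := i.2
    have hj := j.2
    simp only [f] at hij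
    apply Fin.ext
    split_ifs at hij <;> simp only [Fin.mk.injEq] at hij <;> omega
  have hb : Function.Bijective f := Finite.injective_iff_bijective.mp hf
  refine ⟨Equiv.ofBijective f hb, by omega, ?_⟩
  intro i
  have hi := i.2
  simp only [Equiv.ofBijective_apply, f]
  split_ifs <;> simp only [] <;> omega

/-- `σ_n` is allowed for the full tent map -/
lemma sigma_allowed {k : ℕ} (σ : Equiv.Perm (Fin (k + 3))) (hσ : IsSigma σ) :
    Allowed (T 1) σ := by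
  set x : ℝ := 1 / 2 - 1 / 2 ^ (k + 4) with hx
  have hp : (16 : ℝ) ≤ 2 ^ (k + 4) := by
    have : (1 : ℝ) ≤ 2 ^ k := one_le_pow₀ (by norm_num)
    rw [pow_add]; nlinarith
  have hinv : (1 : ℝ) / 2 ^ (k + 4) ≤ 1 / 16 := by
    apply one_div_le_one_div_of_le <;> linarith
  have hinv0 : (0 : ℝ) < 1 / 2 ^ (k + 4) := by positivity
  have hxl : 7 / 16 ≤ x := by rw [hx]; linarith
  have hxu : x < 1 / 2 := by rw [hx]; linarith
  set y : ℕ → ℝ := fun l => (T 1)^[l] x with hy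
  have hsucc : ∀ l, y (l + 1) = T 1 (y l) := fun l => by
    simp only [hy]; rw [Function.iterate_succ_apply']
  have hy0 : y 0 = x := rfl
  have hy1 : y 1 = 1 - 2 / 2 ^ (k + 4) := by
    rw [show y 1 = T 1 x from rfl, T_left hxu.le, hx]; ring
  have hy1' : 7 / 8 ≤ y 1 := by
    rw [hy1]
    have : (2 : ℝ) / 2 ^ (k + 4) = 2 * (1 / 2 ^ (k + 4)) := by ring
    rw [this]; linarith
  have hform : ∀ j, j < k + 1 → y (j + 2) = 2 ^ (j + 2) / 2 ^ (k + 4) := by
    intro j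
    induction j with
    | zero =>
      intro _
      rw [show (0 + 2) = 1 + 1 by norm_num, hsucc, T_right (by linarith), hy1]; ring
    | succ j ih =>
      intro hj
      have a1 := ih (by omega)
      have a2 : (2 : ℝ) ^ (j + 2) / 2 ^ (k + 4) ≤ 1 / 2 := by
        rw [div_le_div_iff₀ (by positivity) (by norm_num)]
        have : (2 : ℝ) ^ (j + 2) * 2 = 2 ^ (j + 3) := by ring
        rw [this, one_mul]
        exact pow_le_pow_right₀ (by norm_num) (by omega)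
      rw [show j + 1 + 2 = (j + 2) + 1 by ring, hsucc, a1, T_left a2]; ring
  have hlt : ∀ j, j < k + 1 → y (j + 2) < 7 / 16 := by
    intro j hj
    rw [hform j hj, div_lt_iff₀ (by positivity)]
    have h1 : (2 : ℝ) ^ (j + 2) ≤ 2 ^ (k + 2) := pow_le_pow_right₀ (by norm_num) (by omega)
    have h2 : (2 : ℝ) ^ (k + 4) = 4 * 2 ^ (k + 2) := by ring
    have h3 : (0 : ℝ) < 2 ^ (k + 2) := by positivity
    rw [h2]; linarith
  refine ⟨x, ⟨by linarith, by linarith⟩, isPat_of_lt ?_⟩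
  have hσ' := hσ.2
  intro i j hij
  have hij' : (σ i : ℕ) < σ j := hij
  have hi := hσ' i
  have hj := hσ' j
  have hin := i.2
  have hjn := j.2
  show y i < y j
  have key1 : ∀ l : ℕ, 2 ≤ l → l < k + 3 → y l < 7 / 16 := by
    intro l hl hl'
    obtain ⟨m, rfl⟩ : ∃ m, l = m + 2 := ⟨l - 2, by omega⟩
    exact hlt m (by omega)
  rcases Nat.lt_or_ge (i : ℕ) 2 with hi2 | hi2
  · -- i = 0 or 1
    rcases Nat.lt_or_ge (i : ℕ) 1 with hi1 | hi1
    · have hi0 : (i : ℕ) = 0 := by omega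
      rw [if_pos hi0] at hi
      rcases Nat.lt_or_ge (j : ℕ) 2 with hj2 | hj2
      · have : (j : ℕ) = 0 ∨ (j : ℕ) = 1 := by omega
        rcases this with hj0 | hj1
        · rw [if_pos hj0] at hj; omega
        · rw [hi0, hj1, hy0]; linarith
      · rw [if_neg (by omega), if_neg (by omega)] at hj
        omega
    · have hi1' : (i : ℕ) = 1 := by omega
      rw [if_neg (by omega), if_pos hi1'] at hi
      have := (σ j).2
      omega
  · have hyi := key1 i hi2 hin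
    rw [if_neg (by omega), if_neg (by omega)] at hi
    rcases Nat.lt_or_ge (j : ℕ) 2 with hj2 | hj2
    · have : (j : ℕ) = 0 ∨ (j : ℕ) = 1 := by omega
      rcases this with hj0 | hj1
      · rw [hj0, hy0]; linarith
      · rw [hj1]; linarith
    · rw [if_neg (by omega), if_neg (by omega)] at hj
      obtain ⟨a, ha⟩ : ∃ a, (i : ℕ) = a + 2 := ⟨(i : ℕ) - 2, by omega⟩
      obtain ⟨b, hb⟩ : ∃ b, (j : ℕ) = b + 2 := ⟨(j : ℕ) - 2, by omega⟩
      rw [ha, hb, hform a (by omega), hform b (by omega)]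
      apply div_lt_div_of_pos_right _ (by positivity)
      exact pow_lt_pow_right₀ (by norm_num) (by omega)

/-- Characterisation of the lengths of `μ`-forbidden patterns. -/
lemma forbidden_iff {μ : ℝ} (hμ : 1 / 2 < μ) (hμ1 : μ < 1) {n : ℕ} (hn : 3 ≤ n) :
    ((∃ π : Equiv.Perm (Fin n), Forbidden μ π) ↔ 1 / 2 ≤ (2 * μ) ^ (n - 2) * (1 - μ)) ∧
    ((∃ σ : Equiv.Perm (Fin n), IsSigma σ ∧ Forbidden μ σ) ↔
      1 / 2 ≤ (2 * μ) ^ (n - 2) * (1 - μ)) := by
  obtain ⟨k, rfl⟩ : ∃ k, n = k + 3 := ⟨n - 3, by omega⟩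
  have h1 : (∃ π : Equiv.Perm (Fin (k + 3)), Forbidden μ π) →
      1 / 2 ≤ (2 * μ) ^ (k + 3 - 2) * (1 - μ) := by
    rintro ⟨π, hπ⟩
    by_contra hcon
    exact no_forbidden hμ hμ1 (Or.inr (not_le.mp hcon)) π hπ
  have h2 : 1 / 2 ≤ (2 * μ) ^ (k + 3 - 2) * (1 - μ) →
      ∃ σ : Equiv.Perm (Fin (k + 3)), IsSigma σ ∧ Forbidden μ σ := by
    intro h
    obtain ⟨σ, hσ⟩ := exists_sigma k
    refine ⟨σ, hσ, sigma_allowed σ hσ, fun hall => ?_⟩
    have := sigma_imp hμ hμ1 σ hσ hall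
    rw [show k + 3 - 2 = k + 1 by omega] at h
    linarith
  refine ⟨⟨h1, fun h => ?_⟩, ⟨fun ⟨σ, _, h⟩ => h1 ⟨σ, h⟩, h2⟩⟩
  obtain ⟨σ, _, h⟩ := h2 h
  exact ⟨σ, h⟩

/-- **Main theorem** (Q1 holds).  For every `μ ∈ (1/2,1)`:
* `μ`-forbidden patterns exist, so the smallest length `n` is well defined;
* if `n` is the smallest length of a `μ`-forbidden pattern, then `n ≥ 4`, `T_μ` avoids `σ_n`, and
  `σ_n` is a `μ`-forbidden pattern of that length;
* for each `n ≥ 3` there is a `μ`-forbidden pattern of length `n` iff `σ_n` is `μ`-forbidden iff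
  `(2μ)^{n-2}(1-μ) ≥ 1/2`. -/
theorem result :
    ∀ μ : ℝ, 1 / 2 < μ → μ < 1 →
      (∃ n : ℕ, IsLeast {n : ℕ | ∃ π : Equiv.Perm (Fin n), Forbidden μ π} n) ∧
      (∀ n : ℕ, IsLeast {n : ℕ | ∃ π : Equiv.Perm (Fin n), Forbidden μ π} n →
        4 ≤ n ∧ (∃ σ : Equiv.Perm (Fin n), IsSigma σ ∧ Forbidden μ σ) ∧
        ∀ σ : Equiv.Perm (Fin n), IsSigma σ → ¬ Allowed (T μ) σ) ∧
      (∀ n : ℕ, 3 ≤ n →
        ((∃ π : Equiv.Perm (Fin n), Forbidden μ π) ↔
          1 / 2 ≤ (2 * μ) ^ (n - 2) * (1 - μ)) ∧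
        ((∃ σ : Equiv.Perm (Fin n), IsSigma σ ∧ Forbidden μ σ) ↔
          1 / 2 ≤ (2 * μ) ^ (n - 2) * (1 - μ))) := by
  intro μ hμ hμ1
  refine ⟨?_, ?_, fun n hn => forbidden_iff hμ hμ1 hn⟩
  · classical
    have hex : ∃ n : ℕ, ∃ π : Equiv.Perm (Fin n), Forbidden μ π := by
      have h0 : (0 : ℝ) < 1 - μ := by linarith
      obtain ⟨m, hm⟩ := pow_unbounded_of_one_lt (1 / (2 * (1 - μ))) (show 1 < 2 * μ by linarith)
      refine ⟨m + 3, ((forbidden_iff hμ hμ1 (by omega)).1).mpr ?_⟩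
      have h1 : (2 * μ) ^ m ≤ (2 * μ) ^ (m + 3 - 2) :=
        pow_le_pow_right₀ (by linarith) (by omega)
      have h2 : 1 / (2 * (1 - μ)) * (1 - μ) = 1 / 2 := by field_simp
      rw [← h2]
      exact mul_le_mul_of_nonneg_right (by linarith) h0.le
    exact ⟨Nat.find hex, Nat.find_spec hex, fun m hm => Nat.find_min' hex hm⟩
  · intro n hn
    obtain ⟨π, hπ⟩ := hn.1
    have hn3 : 3 ≤ n := by
      by_contra hcon
      exact no_forbidden hμ hμ1 (Or.inl (by omega)) π hπ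
    have hc := ((forbidden_iff hμ hμ1 hn3).1).mp ⟨π, hπ⟩
    have hn4 : 4 ≤ n := by
      by_contra hcon
      have : n = 3 := by omega
      subst this
      have : 0 < (2 * μ - 1) * (2 * μ - 1) := mul_pos (by linarith) (by linarith)
      norm_num at hc
      nlinarith
    refine ⟨hn4, ((forbidden_iff hμ hμ1 hn3).2).mpr hc, ?_⟩
    intro σ hσ hall
    obtain ⟨k, rfl⟩ : ∃ k, n = k + 3 := ⟨n - 3, by omega⟩
    have := sigma_imp hμ hμ1 σ hσ hall
    rw [show k + 3 - 2 = k + 1 by omega] at hc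
    linarith

end Pool.Agent.Results.MP_25bc1d_an.ShortestForbiddenPattern
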